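import Pool.Agent.W528.Ord.AllEll

/-!
# Ordinary primes for summands of motives

`K₀` is a number field and `R` a motive over `K₀`, a summand of a motive which realises the intersection
cohomology `H_ℓ`; `R ℓ'` is its `ℓ'`-adic realisation, for all primes `ℓ'`.  The realisations are
strictly compatible: the characteristic polynomials `F v` of the geometric Frobenius elements are
integral and do not depend on `ℓ'`.  Over a finite extension `K` of `K₀` (over which the `ℓ`-adic
monodromy groups are connected, for one prime `ℓ`) `R` is a direct sum of `m i` copies of pieces `A i`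
with multiplication by totally real or CM fields `(A i).E` defined over `K`.

If some element `γ` of the absolute Galois group of `K` satisfies the orbit condition for all `i`, then
the primes of `K₀` at which, for all `ℓ'` and all embeddings `τ` of the field of algebraic numbers into
`ℚ̄_p`, the Newton polygon of `R ℓ'` is the Hodge polygon have positive lower density.
-/

set_option autoImplicit false

namespace Pool.Agent.Results.MP_0dad22_ag.OrdinarySummands

open NumberField IsDedekindDomain Polynomial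
open Pool.Agent.W401.Cheb Pool.Agent.W528.Ord

/-- The realisations `R ℓ'` are strictly compatible: at the places of degree one outside `S` the
characteristic polynomial of the geometric Frobenius element (the inverse of `γ`) is `F v`. -/
def StrictlyCompatible {K₀ : Type} [Field K₀] [NumberField K₀] (S : Finset ℕ) {r : ℕ}
    (R : ∀ (ℓ' : ℕ) [Fact ℓ'.Prime], GK K₀ →* Matrix.GeneralLinearGroup (Fin r) ℚ_[ℓ'])
    (F : HeightOneSpectrum (𝓞 K₀) → Polynomial ℤ) : Prop :=
  ∀ (ℓ' : ℕ) [Fact ℓ'.Prime] (v₀ : HeightOneSpectrum (𝓞 K₀)), MultSystem.IsDeg1 S v₀ →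
    Ideal.absNorm v₀.asIdeal ≠ ℓ' → ∀ γ : GK K₀, IsFrob v₀ γ →
      (R ℓ' γ⁻¹ : Matrix (Fin r) (Fin r) ℚ_[ℓ']).charpoly = (F v₀).map (Int.castRingHom ℚ_[ℓ'])

/-- For every prime `ℓ'` different from the residue characteristic `p = N v₀` and every embedding `τ`
of the field of algebraic numbers the Newton polygon of `R ℓ'` at `v₀` has the slopes `H`. -/
def Ordinary {K₀ : Type} [Field K₀] [NumberField K₀] {r : ℕ}
    (R : ∀ (ℓ' : ℕ) [Fact ℓ'.Prime], GK K₀ →* Matrix.GeneralLinearGroup (Fin r) ℚ_[ℓ'])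
    (H : Multiset ℕ) (v₀ : HeightOneSpectrum (𝓞 K₀)) : Prop :=
  ∃ (p : ℕ) (_ : Fact p.Prime), Ideal.absNorm v₀.asIdeal = p ∧
    ∀ (ℓ' : ℕ) [Fact ℓ'.Prime], p ≠ ℓ' → ∀ γ : GK K₀, IsFrob v₀ γ →
      ∀ τ : algebraicClosure ℚ (PadicAlgCl ℓ') →+* PadicAlgCl p,
        NewtonTau (R ℓ' γ⁻¹ : Matrix (Fin r) (Fin r) ℚ_[ℓ']) τ H

theorem result (K₀ K : Type) [Field K₀] [NumberField K₀] [Field K] [NumberField K] [Algebra K₀ K]
    (ℓ : ℕ) [Fact ℓ.Prime] {ι : Type} [Fintype ι] (A : ι → MotSystem K ℓ) (m : ι → ℕ)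
    (χ : GK K →* (PadicAlgCl ℓ)ˣ) (S : Finset ℕ) (hA : ∀ i, (A i).IsMotive χ S) {r : ℕ}
    (R : ∀ (ℓ' : ℕ) [Fact ℓ'.Prime], GK K₀ →* Matrix.GeneralLinearGroup (Fin r) ℚ_[ℓ'])
    (F : HeightOneSpectrum (𝓞 K₀) → Polynomial ℤ) (hR : StrictlyCompatible S R F)
    (hF : ∀ (v₀ : HeightOneSpectrum (𝓞 K₀)) (v : HeightOneSpectrum (𝓞 K)),
      v.asIdeal.comap (algebraMap (𝓞 K₀) (𝓞 K)) = v₀.asIdeal → MultSystem.IsDeg1 S v →
      (F v₀).map (Int.castRingHom (AlgebraicClosure K)) = MotSystem.prodPoly A m v)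
    (hγ : ∃ γ : GK K, ∀ i, (A i).Admissible γ) :
    0 < lowerDensity (Ordinary R (MotSystem.slopes A m)) := by
  refine lt_of_lt_of_le (MotSystem.lower_down K₀ K ℓ A m χ S hA F hF hγ) ?_
  apply lowerDensity_mono
  rintro v₀ ⟨hv, hN⟩
  have hN' := hN
  obtain ⟨hp, -⟩ := hN
  refine ⟨Ideal.absNorm v₀.asIdeal, hp, rfl, ?_⟩
  intro ℓ' _ hne γ hγ τ
  exact newtonTau_of _ τ _ (F v₀) (hR ℓ' v₀ hv hne γ hγ) hN'

end Pool.Agent.Results.MP_0dad22_ag.OrdinarySummands
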